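import Mathlib
import Pool.Agent.V1128.Br.Sec
import Pool.Agent.V1128.Br.Fam

set_option autoImplicit false

namespace Pool.Agent.Results.MP_ded1c1b5_al.BinaryTree

open Pool.Agent.V1128.Br

theorem moves {m : ℕ} {n : Equiv.Perm (List Bool)} (hn : n ∈ AutT Bool)
    (hm : ∀ v : List Bool, v.length = m → n v = v) (h1 : n ≠ 1) :
    ∃ x : List Bool, n x ≠ x ∧ m ≤ x.length := by
  obtain ⟨x, hx⟩ : ∃ x, n x ≠ x := by
    by_contra hc
    push Not at hc
    exact h1 (Equiv.ext hc)
  refine ⟨x, hx, ?_⟩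
  by_contra hlt
  exact hx (fix_short hn hm (by omega))

theorem moves_ext {n : Equiv.Perm (List Bool)} (hn : n ∈ AutT Bool) {x : List Bool} (hx : n x ≠ x)
    (t : List Bool) : n (x ++ t) ≠ x ++ t := by
  intro h
  apply hx
  have h1 : x <+: x ++ t := List.prefix_append _ _
  have h2 := pre hn h1
  rw [h] at h2
  exact pre_eq h2 h1 (len hn x)

theorem ristL_le (m : ℕ) : ristL (AutT Bool) m ≤ AutT Bool :=
  iSup₂_le fun _ _ => fun _ hg => hg.1

theorem ristL_fix {m : ℕ} {n : Equiv.Perm (List Bool)} (hn : n ∈ ristL (AutT Bool) m)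
    {v : List Bool} (hv : v.length = m) : n v = v := by
  have h1 : ristL (AutT Bool) m ≤ MulAction.stabilizer (Equiv.Perm (List Bool)) v := by
    refine iSup₂_le fun w hw => fun g hg => ?_
    rw [MulAction.mem_stabilizer_iff, Equiv.Perm.smul_def]
    by_cases h : w <+: v
    · have := h.eq_of_length (by rw [hw, hv])
      rw [← this]
      exact rist_fix le_rfl hg
    · exact hg.2 v h
  exact h1 hn

theorem card_lev (m : ℕ) : Nat.card (Lev m) = 2 ^ m := by
  have e : Lev m ≃ List.Vector Bool m := Equiv.refl _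
  rw [Nat.card_congr e, Nat.card_eq_fintype_card, card_vector, Fintype.card_bool]

section

variable {m : ℕ}

theorem fam : Fam (ristL (AutT Bool) m) (Lev m) := by
  refine ⟨fun v => (rist (AutT Bool) v.1).subgroupOf (ristL (AutT Bool) m), fun v => ⟨?_⟩, fun v hv => ?_,
    fun v w hvw a ha b hb => ?_⟩
  · intro a ha g
    rw [Subgroup.mem_subgroupOf] at ha ⊢
    have h1 := rist_conj (ristL_le m g.2) ha
    rw [ristL_fix g.2 v.2] at h1
    exact h1
  · rw [Subgroup.eq_bot_iff_forall] at hv
    have h1 := hv ⟨graft v.1 sw, rist_le_ristL v.2.ge (graft_mem v.1 sw_mem)⟩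
      (graft_mem v.1 sw_mem)
    have h2 : graft v.1 sw = graft v.1 1 := by
      have h5 : graft v.1 sw = 1 := congrArg Subtype.val h1
      exact h5.trans (map_one (graftHom v.1)).symm
    have h3 := graft_inj _ h2
    have h4 := congrArg (fun g : Equiv.Perm (List Bool) => g [true]) h3
    revert h4
    decide
  · apply Subtype.ext
    exact rist_disj (fun h => hvw (Subtype.ext h)) (by rw [v.2, w.2]) ha hb

theorem conj_of_normal {N : Subgroup (ristL (AutT Bool) m)} (hN : N.Normal) :
    ∀ n ∈ N.map (ristL (AutT Bool) m).subtype, ∀ p ∈ ristL (AutT Bool) m,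
      p * n * p⁻¹ ∈ N.map (ristL (AutT Bool) m).subtype := by
  rintro _ ⟨n, hn, rfl⟩ p hp
  exact ⟨⟨p, hp⟩ * n * ⟨p, hp⟩⁻¹, hN.conj_mem n hn _, rfl⟩

theorem graft_comm {x : List Bool} (h : graft x al * graft x be = graft x be * graft x al) : False := by
  rw [← graft_mul, ← graft_mul] at h
  exact al_be (graft_inj x h)

theorem bound (ι : Type) [Finite ι] (h : Fam (ristL (AutT Bool) m) ι) : Nat.card ι ≤ Nat.card (Lev m) := by
  obtain ⟨N, h1, h2, h3⟩ := h
  have key : ∀ i, ∃ n : ristL (AutT Bool) m, n ∈ N i ∧ ∃ x : List Bool, n.1 x ≠ x ∧ m ≤ x.length := by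
    intro i
    obtain ⟨n, hn, hn1⟩ : ∃ n, n ∈ N i ∧ n ≠ 1 := by
      by_contra hc
      push Not at hc
      exact h2 i ((Subgroup.eq_bot_iff_forall _).mpr hc)
    exact ⟨n, hn, moves (ristL_le m n.2) (fun v hv => ristL_fix n.2 hv)
      (fun h => hn1 (Subtype.ext h))⟩
  choose n hn x hx hxm using key
  let c : ι → Lev m := fun i => ⟨(x i).take m, by simp [hxm i]⟩
  apply Nat.card_le_card_of_injective c
  intro i j hij
  by_contra hne
  have hv : (x i).take m = (x j).take m := congrArg Subtype.val hij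
  set v := (x i).take m with hvd
  have hvl : v.length = m := by simp [hvd, hxm i]
  -- equal lengths
  obtain ⟨s, hs⟩ : v <+: x i := List.take_prefix m _
  obtain ⟨t, ht⟩ : v <+: x j := by rw [hv]; exact List.take_prefix m _
  set s' := s ++ List.replicate t.length false with hs'
  set t' := t ++ List.replicate s.length false with ht'
  have hl : t'.length = s'.length := by simp [hs', ht', add_comm]
  have hX : (n i).1 (v ++ s') ≠ v ++ s' := by
    rw [hs', ← List.append_assoc, hs]
    exact moves_ext (ristL_le m (n i).2) (hx i) _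
  have hY : (n j).1 (v ++ t') ≠ v ++ t' := by
    rw [ht', ← List.append_assoc, ht]
    exact moves_ext (ristL_le m (n j).2) (hx j) _
  set g := graft v (tr (List.zipWith xor t' s')) with hg
  have hgP : g ∈ ristL (AutT Bool) m := rist_le_ristL hvl.ge (graft_mem v (tr_mem _))
  have hgy : g (v ++ t') = v ++ s' := by
    rw [hg, graft_app]
    congr 1
    exact tr_trans t' s' hl
  have hxP : rist (AutT Bool) (v ++ s') ≤ ristL (AutT Bool) m := rist_le_ristL (by simp [hvl])
  have ni : (n i).1 ∈ (N i).map (ristL (AutT Bool) m).subtype := ⟨n i, hn i, rfl⟩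
  have nj : g * (n j).1 * g⁻¹ ∈ (N j).map (ristL (AutT Bool) m).subtype :=
    conj_of_normal (h1 j) _ ⟨n j, hn j, rfl⟩ g hgP
  have hZ : (g * (n j).1 * g⁻¹) (v ++ s') ≠ v ++ s' := by
    intro h
    apply hY
    apply g.injective
    rw [← hgy] at h
    have e : (g * (n j).1 * g⁻¹) (g (v ++ t')) = g ((n j).1 (v ++ t')) := by
      rw [Equiv.Perm.mul_apply, Equiv.Perm.mul_apply, Equiv.Perm.inv_def, Equiv.symm_apply_apply]
    rwa [e] at h
  have t1 := (test_mem (ristL_le m) (conj_of_normal (h1 i)) (Subgroup.map_subtype_le _) ni hX hxP).1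
  have t2 := (test_mem (ristL_le m) (conj_of_normal (h1 j)) (Subgroup.map_subtype_le _) nj hZ hxP).2
  obtain ⟨a, ha, ha'⟩ := t1
  obtain ⟨b, hb, hb'⟩ := t2
  have h4 := congrArg Subtype.val (h3 i j hne a ha b hb)
  have ha'' : (a : Equiv.Perm (List Bool)) = graft (v ++ s') al := ha'
  have hb'' : (b : Equiv.Perm (List Bool)) = graft (v ++ s') be := hb'
  apply graft_comm (x := v ++ s')
  rw [← ha'', ← hb'']
  exact h4

theorem center (f : ristL (AutT Bool) m) (hf : ∀ g, f * g = g * f) : f = 1 := by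
  by_contra hne
  obtain ⟨x, hx, hxm⟩ := moves (ristL_le m f.2) (fun v hv => ristL_fix f.2 hv)
      (fun h => hne (Subtype.ext h))
  have hf' : ∀ g ∈ ristL (AutT Bool) m, (f : Equiv.Perm (List Bool)) * g = g * f := fun g hg =>
    congrArg Subtype.val (hf ⟨g, hg⟩)
  have hz : ∀ n ∈ Subgroup.zpowers (f : Equiv.Perm (List Bool)), ∀ g ∈ ristL (AutT Bool) m,
      n * g = g * n := by
    rintro _ ⟨k, rfl⟩ g hg
    exact Commute.zpow_left (hf' g hg) k
  have h1 := test_mem (n := (f : Equiv.Perm (List Bool))) (ristL_le m)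
    (N := Subgroup.zpowers (f : Equiv.Perm (List Bool)))
    (fun n hn p hp => by rw [← hz n hn p hp, mul_inv_cancel_right]; exact hn)
    (by rw [Subgroup.zpowers_le]; exact f.2) (Subgroup.mem_zpowers _) hx (rist_le_ristL hxm)
  apply graft_comm (x := x)
  refine hz _ h1.1 _ ?_
  have h2 := h1.2
  exact (Subgroup.zpowers_le.mpr f.2) h2

end

/-- There are a profinite branch group `U` and `n > 1` such that `U` is commensurable with `U ^ n`
but no rigid level stabiliser of `U` is isomorphic to `K ^ n` for a subgroup `K` of finite index. -/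
theorem result : ∃ (U : Subgroup (Equiv.Perm (List Bool))) (n : ℕ), IsBranch U ∧ 1 < n ∧
    Comm U (Fin n → U) ∧
    ∀ (m : ℕ) (K : Subgroup U), K.index ≠ 0 → IsEmpty (ristL U m ≃ₜ* (Fin n → K)) := by
  refine ⟨AutT Bool, 3, isBranch, by norm_num, comm3, fun m K _ => ⟨fun e => ?_⟩⟩
  have h1 : 3 ∣ Nat.card (Lev m) :=
    dvd_card (by norm_num) e.toMulEquiv fam (fun ι _ h => bound ι h) center
  rw [card_lev] at h1
  have h2 := Nat.Prime.dvd_of_dvd_pow Nat.prime_three h1
  norm_num at h2

end Pool.Agent.Results.MP_ded1c1b5_al.BinaryTree
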